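import Pool.Agent.REV.StmtsP3

set_option autoImplicit false

/-!
# Row PDJ: a rational inequality
-/

namespace Pool.Agent.REV.H24

theorem pdj : PdjStmt := by
  intro q θ hq
  have h1 : 0 < 1 + θ ^ 2 := by positivity
  have h2 : 0 < 1 + q * θ ^ 2 := by positivity
  have h3 : 0 < 1 + q := by linarith
  have key : q / 2 - q / (4 * (1 + q)) -
      (q / ((1 + θ ^ 2) * (1 + q * θ ^ 2)) - q * (1 - q * θ ^ 2) / (1 + q * θ ^ 2) ^ 2) =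
      q * ((1 + 2 * q) * (1 + θ ^ 2) * (1 - q * θ ^ 2) ^ 2 + 4 * θ ^ 2 * (1 + q ^ 2 * θ ^ 2)) /
        (4 * (1 + q) * (1 + θ ^ 2) * (1 + q * θ ^ 2) ^ 2) := by
    field_simp
    ring
  have h4 : 0 ≤ q * ((1 + 2 * q) * (1 + θ ^ 2) * (1 - q * θ ^ 2) ^ 2 +
      4 * θ ^ 2 * (1 + q ^ 2 * θ ^ 2)) / (4 * (1 + q) * (1 + θ ^ 2) * (1 + q * θ ^ 2) ^ 2) := by
    positivity
  linarith

end Pool.Agent.REV.H24
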