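import Pool.Agent.REV.StmtsA1

/-! Squad REV, row CONR: contraction. -/

set_option autoImplicit false

namespace Pool.Agent.REV.H24

/-- row CONR -/
theorem conr (hsta : StaStmt) (hstb : StbStmt) : ConStmt := by
  intro n i C1 C2 A f hn hi hin h1 h2 hA hf hP
  exact ⟨hstb n i C1 C2 A f hn hi hin h1 h2 hA hf hP.2,
    hsta n i C1 C2 A f hn hi hin h1 h2 hA hf hP.1⟩

end Pool.Agent.REV.H24
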