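import Pool.Agent.REV.StmtsU

/-! Squad REV, row KST: sign lemma for `kk`, strict. -/

set_option autoImplicit false

namespace Pool.Agent.REV.H24

open Set Filter
open scoped Topology

/-- row KST -/
theorem kst (hkki : KkiStmt) : KstStmt := by
  intro n γ hn hanti hcont hne
  obtain ⟨hkc, hkf, hki⟩ := hkki n hn
  have hn4 : (4 : ℝ) ≤ n := by exact_mod_cast hn
  have hn1 : (0 : ℝ) < (n : ℝ) - 1 := by linarith
  obtain ⟨r0, hr0⟩ : ∃ r0 : ℝ, r0 = 1 / Real.sqrt ((n : ℝ) - 1) := ⟨_, rfl⟩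
  have hs : 0 < Real.sqrt ((n : ℝ) - 1) := Real.sqrt_pos.2 hn1
  have hr0p : 0 < r0 := by rw [hr0]; positivity
  have hr0s : ((n : ℝ) - 1) * r0 ^ 2 = 1 := by
    rw [hr0, div_pow, one_pow, Real.sq_sqrt hn1.le]
    field_simp
  have hr01 : r0 < 1 := by
    by_contra h
    rw [not_lt] at h
    have : 1 ≤ r0 ^ 2 := by nlinarith
    nlinarith
  have hr0m : r0 ∈ Icc (0 : ℝ) 1 := ⟨hr0p.le, hr01.le⟩
  -- the integral of the kernel
  have hk0 : ∫ r in (0 : ℝ)..1, kk n r = 0 := by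
    rw [hki 1 ⟨zero_le_one, le_rfl⟩]
    have h1 : (1 : ℝ) - 1 ^ 2 = 0 := by norm_num
    rw [h1, Real.zero_rpow (by linarith), mul_zero]
  have hkI : IntervalIntegrable (kk n) MeasureTheory.volume 0 1 := by
    apply ContinuousOn.intervalIntegrable
    rw [uIcc_of_le zero_le_one]
    exact hkc
  have hFc : ContinuousOn (fun r => kk n r * (γ r - γ r0)) (Icc 0 1) :=
    hkc.mul (hcont.sub continuousOn_const)
  have hFI : IntervalIntegrable (fun r => kk n r * (γ r - γ r0)) MeasureTheory.volume 0 1 := by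
    apply ContinuousOn.intervalIntegrable
    rw [uIcc_of_le zero_le_one]
    exact hFc
  have hint : ∫ r in (0 : ℝ)..1, kk n r * γ r = ∫ r in (0 : ℝ)..1, kk n r * (γ r - γ r0) := by
    have h1 : ∫ r in (0 : ℝ)..1, (kk n r * (γ r - γ r0) + kk n r * γ r0) =
        (∫ r in (0 : ℝ)..1, kk n r * (γ r - γ r0)) + ∫ r in (0 : ℝ)..1, kk n r * γ r0 :=
      intervalIntegral.integral_add hFI (hkI.mul_const _)
    rw [intervalIntegral.integral_mul_const, hk0, zero_mul, add_zero] at h1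
    rw [← h1]
    refine intervalIntegral.integral_congr fun r _ => ?_
    show kk n r * γ r = kk n r * (γ r - γ r0) + kk n r * γ r0
    ring
  rw [hint]
  have hpow : ∀ r ∈ Icc (0 : ℝ) 1, 0 ≤ (1 - r ^ 2) ^ (((n : ℝ) - 4) / 2) := by
    intro r hr
    apply Real.rpow_nonneg
    nlinarith [hr.1, hr.2]
  have hF0 : ∀ r ∈ Icc (0 : ℝ) 1, 0 ≤ kk n r * (γ r - γ r0) := by
    intro r hr
    rw [hkf r hr]
    rcases le_total r r0 with h | h
    · have h1 : r ^ 2 ≤ r0 ^ 2 := pow_le_pow_left₀ hr.1 h 2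
      have h2 : 0 ≤ 1 - ((n : ℝ) - 1) * r ^ 2 := by nlinarith
      have h3 : 0 ≤ γ r - γ r0 := by
        have := hanti hr hr0m h
        linarith
      exact mul_nonneg (mul_nonneg (hpow r hr) h2) h3
    · have h1 : r0 ^ 2 ≤ r ^ 2 := pow_le_pow_left₀ hr0p.le h 2
      have h2 : 1 - ((n : ℝ) - 1) * r ^ 2 ≤ 0 := by nlinarith
      have h3 : γ r - γ r0 ≤ 0 := by
        have := hanti hr0m hr h
        linarith
      exact mul_nonneg_of_nonpos_of_nonpos (mul_nonpos_of_nonneg_of_nonpos (hpow r hr) h2) h3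
  refine intervalIntegral.integral_pos one_pos hFc (fun r hr => hF0 r ⟨hr.1.le, hr.2⟩) ?_
  by_contra hno
  push Not at hno
  -- then the function is constant
  have hconst : ∀ r ∈ Icc (0 : ℝ) 1, r < 1 → γ r = γ r0 := by
    intro r hr hr1
    by_cases hrr : r = r0
    · rw [hrr]
    · have h1 := le_antisymm (hno r hr) (hF0 r hr)
      have hkne : kk n r ≠ 0 := by
        rw [hkf r hr]
        have h2 : 0 < (1 - r ^ 2) ^ (((n : ℝ) - 4) / 2) := by
          apply Real.rpow_pos_of_pos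
          nlinarith [hr.1]
        refine mul_ne_zero h2.ne' ?_
        intro h3
        apply hrr
        have h4 : r ^ 2 = r0 ^ 2 := by
          have h5 : ((n : ℝ) - 1) * r ^ 2 = ((n : ℝ) - 1) * r0 ^ 2 := by linarith
          exact mul_left_cancel₀ hn1.ne' h5
        exact (pow_left_inj₀ hr.1 hr0p.le two_ne_zero).1 h4
      rcases mul_eq_zero.1 h1 with h2 | h2
      · exact absurd h2 hkne
      · linarith
  have hone : γ 1 = γ r0 := by
    have h1 : Tendsto γ (𝓝[Ioo r0 1] 1) (𝓝 (γ 1)) :=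
      (hcont 1 ⟨zero_le_one, le_rfl⟩).mono_left
        (nhdsWithin_mono _ (fun x hx => ⟨hr0p.le.trans hx.1.le, hx.2.le⟩))
    have h2 : Tendsto γ (𝓝[Ioo r0 1] 1) (𝓝 (γ r0)) := by
      refine tendsto_const_nhds.congr' ?_
      filter_upwards [self_mem_nhdsWithin] with x hx
      exact (hconst x ⟨hr0p.le.trans hx.1.le, hx.2.le⟩ hx.2).symm
    have : (𝓝[Ioo r0 1] (1 : ℝ)).NeBot := right_nhdsWithin_Ioo_neBot hr01
    exact tendsto_nhds_unique h1 h2
  have hall : ∀ r ∈ Icc (0 : ℝ) 1, γ r = γ r0 := by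
    intro r hr
    rcases hr.2.lt_or_eq with h | h
    · exact hconst r hr h
    · rw [h, hone]
  obtain ⟨x, hx, y, hy, hxy⟩ := hne
  exact hxy ((hall x hx).trans (hall y hy).symm)

end Pool.Agent.REV.H24
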